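import Mathlib
import Pool.Agent.X103.Lap

/-!
# MP_c070b6_an, Q1: the conformal Levy-Gromov inequality for Liouville supersolutions fails

For `u(x,y) = -log cosh x - ε y²` one has `Δu + e^{2u} ≤ 0`, finite area, and for the half plane
`Ω = {y < 0}` the boundary length is `∫ sech < ∞`, independent of `ε`, while both areas tend to
infinity as `ε → 0`.  Hence the inequality `L² ≥ A(Ω) A(Ωᶜ)` fails, even after multiplying the
left hand side by any constant, and the total area of supersolutions is unbounded.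
-/

namespace Pool.Agent.Results.MP_c070b6_an.LevyGromovFails

open MeasureTheory Set Filter Topology InnerProductSpace
open scoped ENNReal

/-- The Euclidean plane. -/
abbrev Plane : Type := EuclideanSpace ℝ (Fin 2)

/-- `u` is a `C²` supersolution of the Liouville equation on the plane with finite volume. -/
structure IsSupersolution (u : Plane → ℝ) : Prop where
  smooth : ContDiff ℝ 2 u
  ineq : ∀ x, (Laplacian.laplacian u) x + Real.exp (2 * u x) ≤ 0
  finite : ∫⁻ x, ENNReal.ofReal (Real.exp (2 * u x)) < ∞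

/-- `g`-area of a set, `g = e^{2u} δ`. -/
noncomputable def area (u : Plane → ℝ) (S : Set Plane) : ℝ≥0∞ :=
  ∫⁻ x in S, ENNReal.ofReal (Real.exp (2 * u x))

/-- `g`-length of the boundary of `Ω`: the integral of `e^u` over `∂Ω` for the one-dimensional
Hausdorff measure. -/
noncomputable def boundaryLength (u : Plane → ℝ) (Ω : Set Plane) : ℝ≥0∞ :=
  ∫⁻ x in frontier Ω, ENNReal.ofReal (Real.exp (u x)) ∂(Measure.hausdorffMeasure 1)

/-- A smooth domain: nonempty, connected, open, and near each of its boundary points it is the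
sublevel set of a smooth function with nonzero differential there. -/
def IsSmoothDomain (Ω : Set Plane) : Prop :=
  IsOpen Ω ∧ IsConnected Ω ∧ ∀ x ∈ frontier Ω, ∃ U ∈ 𝓝 x, ∃ ρ : Plane → ℝ,
    ContDiff ℝ (⊤ : ℕ∞) ρ ∧ fderiv ℝ ρ x ≠ 0 ∧ Ω ∩ U = {y | ρ y < 0} ∩ U

/-- The conformal factor. -/
noncomputable def uu (ε : ℝ) (p : Plane) : ℝ := -Real.log (Real.cosh (p 0)) - ε * (p 1) ^ 2

/-- The half plane. -/
def HP : Set Plane := {p | p 1 < 0}

lemma contDiff_coord (i : Fin 2) : ContDiff ℝ (⊤ : ℕ∞) (fun p : Plane => p i) :=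
  (EuclideanSpace.proj (𝕜 := ℝ) i).contDiff

lemma uu_contDiff (ε : ℝ) : ContDiff ℝ (⊤ : ℕ∞) (uu ε) := by
  unfold uu
  have h0 := contDiff_coord 0
  have h1 := contDiff_coord 1
  refine ContDiff.sub (ContDiff.neg (ContDiff.log ?_ ?_)) (contDiff_const.mul (h1.pow 2))
  · exact Real.contDiff_cosh.comp h0
  · intro x; exact (Real.cosh_pos _).ne'

lemma exp_uu (ε : ℝ) (p : Plane) :
    Real.exp (uu ε p) = (Real.cosh (p 0))⁻¹ * Real.exp (-ε * (p 1) ^ 2) := by
  unfold uu
  rw [sub_eq_add_neg, Real.exp_add, Real.exp_neg, Real.exp_log (Real.cosh_pos _)]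
  congr 2; ring

lemma exp_two_uu (ε : ℝ) (p : Plane) :
    Real.exp (2 * uu ε p) = (Real.cosh (p 0) ^ 2)⁻¹ * Real.exp (-(2 * ε) * (p 1) ^ 2) := by
  rw [two_mul, Real.exp_add, exp_uu]
  have : Real.exp (-(2 * ε) * (p 1) ^ 2) = Real.exp (-ε * (p 1) ^ 2) * Real.exp (-ε * (p 1) ^ 2) := by
    rw [← Real.exp_add]; congr 1; ring
  rw [this, show (Real.cosh (p 0) ^ 2)⁻¹ = (Real.cosh (p 0))⁻¹ * (Real.cosh (p 0))⁻¹ by rw [pow_two, mul_inv]]; ring

lemma line0 (ε : ℝ) (p : Plane) :
    iteratedFDeriv ℝ 2 (uu ε) p ![EuclideanSpace.single 0 1, EuclideanSpace.single 0 1]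
      = -(Real.cosh (p 0) ^ 2)⁻¹ := by
  refine Pool.Agent.X103.Lap.iteratedFDeriv_two_line
    ((uu_contDiff ε).of_le (by norm_cast)) p _
    (g := fun t => -(Real.sinh (p 0 + t) / Real.cosh (p 0 + t))) ?_ ?_
  · intro t
    have h1 : HasDerivAt (fun t : ℝ => Real.cosh (p 0 + t)) (Real.sinh (p 0 + t)) t := by
      have := ((hasDerivAt_id t).const_add (p 0)).cosh
      simpa using this
    have h2 := ((h1.log (Real.cosh_pos _).ne').neg).sub_const (ε * (p 1) ^ 2)
    have h3 : (fun t : ℝ => uu ε (p + t • EuclideanSpace.single (0 : Fin 2) (1 : ℝ)))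
        = fun t => -Real.log (Real.cosh (p 0 + t)) - ε * (p 1) ^ 2 := by
      funext t
      simp [uu]
    rw [h3]
    simpa using h2
  · have h1 : HasDerivAt (fun t : ℝ => Real.sinh (p 0 + t)) (Real.cosh (p 0)) 0 := by
      have := ((hasDerivAt_id (0:ℝ)).const_add (p 0)).sinh
      simpa using this
    have h2 : HasDerivAt (fun t : ℝ => Real.cosh (p 0 + t)) (Real.sinh (p 0)) 0 := by
      have := ((hasDerivAt_id (0:ℝ)).const_add (p 0)).cosh
      simpa using this
    have h3 := (h1.div h2 (by simpa using (Real.cosh_pos (p 0)).ne')).neg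
    have h4 : -(Real.cosh (p 0) ^ 2)⁻¹ = -((Real.cosh (p 0) * Real.cosh (p 0 + 0)
        - Real.sinh (p 0 + 0) * Real.sinh (p 0)) / Real.cosh (p 0 + 0) ^ 2) := by
      have hc := Real.cosh_sq (p 0)
      have : Real.cosh (p 0) * Real.cosh (p 0) - Real.sinh (p 0) * Real.sinh (p 0) = 1 := by
        nlinarith [hc]
      simp only [add_zero, this]
      rw [one_div]
    rw [h4]
    exact h3

lemma line1 (ε : ℝ) (p : Plane) :
    iteratedFDeriv ℝ 2 (uu ε) p ![EuclideanSpace.single 1 1, EuclideanSpace.single 1 1]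
      = -(2 * ε) := by
  refine Pool.Agent.X103.Lap.iteratedFDeriv_two_line
    ((uu_contDiff ε).of_le (by norm_cast)) p _
    (g := fun t => -(2 * ε) * (p 1 + t)) ?_ ?_
  · intro t
    have h1 : HasDerivAt (fun t : ℝ => (p 1 + t)) 1 t := (hasDerivAt_id t).const_add (p 1)
    have h2 := ((h1.pow 2).const_mul ε).const_sub (-Real.log (Real.cosh (p 0)))
    have h3 : (fun t : ℝ => uu ε (p + t • EuclideanSpace.single (1 : Fin 2) (1 : ℝ)))
        = fun t => -Real.log (Real.cosh (p 0)) - ε * (p 1 + t) ^ 2 := by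
      funext t
      simp [uu]
    rw [h3]
    refine h2.congr_deriv ?_
    simp; ring
  · have h1 : HasDerivAt (fun t : ℝ => (p 1 + t)) 1 0 := (hasDerivAt_id (0:ℝ)).const_add (p 1)
    simpa using h1.const_mul (-(2 * ε))

lemma laplacian_uu (ε : ℝ) (p : Plane) :
    (Laplacian.laplacian (uu ε)) p = -(Real.cosh (p 0) ^ 2)⁻¹ - 2 * ε := by
  rw [laplacian_eq_iteratedFDeriv_orthonormalBasis (uu ε) (EuclideanSpace.basisFun (Fin 2) ℝ)]
  simp only [EuclideanSpace.basisFun_apply, Fin.sum_univ_two, line0, line1]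
  ring

lemma uu_ineq {ε : ℝ} (hε : 0 < ε) (p : Plane) :
    (Laplacian.laplacian (uu ε)) p + Real.exp (2 * uu ε p) ≤ 0 := by
  rw [laplacian_uu, exp_two_uu]
  have h1 : Real.exp (-(2 * ε) * (p 1) ^ 2) ≤ 1 := by
    rw [Real.exp_le_one_iff]; nlinarith [sq_nonneg (p 1)]
  have h2 : 0 < (Real.cosh (p 0) ^ 2)⁻¹ := by positivity
  nlinarith

/-- The measurable identification of the plane with a product. -/
noncomputable def toProd : Plane ≃ᵐ ℝ × ℝ :=
  (MeasurableEquiv.toLp 2 (Fin 2 → ℝ)).symm.trans MeasurableEquiv.finTwoArrow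

lemma toProd_mp : MeasurePreserving toProd (volume : Measure Plane) (volume : Measure (ℝ × ℝ)) :=
  (EuclideanSpace.volume_preserving_symm_measurableEquiv_toLp (Fin 2)).trans
    (volume_preserving_finTwoArrow ℝ)

lemma toProd_apply (p : Plane) : toProd p = (p 0, p 1) := rfl

/-- Product formula for integrals over horizontal strips `{p | p 1 ∈ T}`. -/
lemma area_strip (ε : ℝ) {T : Set ℝ} (hT : MeasurableSet T) :
    area (uu ε) {p | p 1 ∈ T} =
      (∫⁻ x : ℝ, ENNReal.ofReal ((Real.cosh x ^ 2)⁻¹)) *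
        ∫⁻ y in T, ENNReal.ofReal (Real.exp (-(2 * ε) * y ^ 2)) := by
  have hS : MeasurableSet {p : Plane | p 1 ∈ T} :=
    (contDiff_coord 1).continuous.measurable hT
  unfold area
  rw [← lintegral_indicator hS, ← lintegral_indicator hT]
  have hf : Measurable (fun x : ℝ => ENNReal.ofReal ((Real.cosh x ^ 2)⁻¹)) := by
    have : Continuous (fun x : ℝ => Real.cosh x) := Real.continuous_cosh
    exact ((this.measurable.pow_const 2).inv).ennreal_ofReal
  have hg : Measurable (T.indicator fun y : ℝ => ENNReal.ofReal (Real.exp (-(2 * ε) * y ^ 2))) := by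
    refine Measurable.indicator ?_ hT
    fun_prop
  rw [← lintegral_prod_mul hf.aemeasurable hg.aemeasurable]
  have h1 : (∫⁻ p : Plane, {p : Plane | p 1 ∈ T}.indicator
      (fun x => ENNReal.ofReal (Real.exp (2 * uu ε x))) p)
      = ∫⁻ p : Plane, (fun z : ℝ × ℝ => ENNReal.ofReal ((Real.cosh z.1 ^ 2)⁻¹) *
        T.indicator (fun y : ℝ => ENNReal.ofReal (Real.exp (-(2 * ε) * y ^ 2))) z.2) (toProd p) := by
    refine lintegral_congr fun p => ?_
    by_cases hp : p 1 ∈ T
    · rw [indicator_of_mem (by exact hp), toProd_apply]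
      simp only
      rw [indicator_of_mem hp, exp_two_uu, ENNReal.ofReal_mul (by positivity)]
    · rw [indicator_of_notMem (by exact hp), toProd_apply]
      simp only
      rw [indicator_of_notMem hp, mul_zero]
  rw [h1]
  exact toProd_mp.lintegral_comp_emb toProd.measurableEmbedding
    (fun z : ℝ × ℝ => ENNReal.ofReal ((Real.cosh z.1 ^ 2)⁻¹) *
        T.indicator (fun y : ℝ => ENNReal.ofReal (Real.exp (-(2 * ε) * y ^ 2))) z.2)

lemma frontier_HP : frontier HP = {p : Plane | p 1 = 0} := by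
  have h1 : HP = (EuclideanSpace.proj (𝕜 := ℝ) (1 : Fin 2) : Plane →L[ℝ] ℝ) ⁻¹' (Iio 0) := rfl
  have hs : Function.Surjective (EuclideanSpace.proj (𝕜 := ℝ) (1 : Fin 2) : Plane →L[ℝ] ℝ) := by
    intro y
    exact ⟨EuclideanSpace.single 1 y, by simp⟩
  rw [h1, ← (ContinuousLinearMap.isOpenMap _ hs).preimage_frontier_eq_frontier_preimage
    (ContinuousLinearMap.continuous _), frontier_Iio]
  rfl

lemma HP_smooth : IsSmoothDomain HP := by
  refine ⟨?_, ⟨⟨EuclideanSpace.single 1 (-1), by simp [HP]⟩, ?_⟩, ?_⟩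
  · exact isOpen_lt (contDiff_coord 1).continuous continuous_const
  · have : Convex ℝ HP := by
      have h1 : HP = (EuclideanSpace.proj (𝕜 := ℝ) (1 : Fin 2) : Plane →L[ℝ] ℝ) ⁻¹' (Iio 0) := rfl
      rw [h1]
      exact (convex_Iio (0:ℝ)).linear_preimage
        (EuclideanSpace.proj (𝕜 := ℝ) (1 : Fin 2) : Plane →L[ℝ] ℝ).toLinearMap
    exact this.isPreconnected
  · intro x _
    refine ⟨univ, univ_mem, fun p => p 1, contDiff_coord 1, ?_, rfl⟩
    have : fderiv ℝ (fun p : Plane => p 1) x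
        = (EuclideanSpace.proj (𝕜 := ℝ) (1 : Fin 2) : Plane →L[ℝ] ℝ) :=
      (EuclideanSpace.proj (𝕜 := ℝ) (1 : Fin 2) : Plane →L[ℝ] ℝ).fderiv
    rw [this]
    intro h
    have h2 := congrArg (fun L : Plane →L[ℝ] ℝ => L (EuclideanSpace.single 1 1)) h
    simp at h2

/-- The horizontal axis as an isometric line. -/
noncomputable def axis (x : ℝ) : Plane := EuclideanSpace.single 0 x

lemma axis_isometry : Isometry axis := by
  refine Isometry.of_dist_eq fun x y => ?_
  unfold axis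
  rw [PiLp.dist_single_same]

lemma range_axis : range axis = {p : Plane | p 1 = 0} := by
  ext p
  simp only [mem_range, mem_ofPred_eq]
  constructor
  · rintro ⟨x, rfl⟩; simp [axis]
  · intro h
    refine ⟨p 0, ?_⟩
    ext i
    fin_cases i
    · simp [axis]
    · simp [axis, h]

lemma length_HP (ε : ℝ) :
    boundaryLength (uu ε) HP = ∫⁻ x : ℝ, ENNReal.ofReal ((Real.cosh x)⁻¹) := by
  unfold boundaryLength
  rw [frontier_HP, ← range_axis, ← axis_isometry.map_hausdorffMeasure (Or.inl zero_le_one)]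
  have hm : MeasurableEmbedding axis := axis_isometry.isClosedEmbedding.measurableEmbedding
  rw [hm.lintegral_map, hausdorffMeasure_real]
  refine lintegral_congr fun x => ?_
  rw [exp_uu]
  simp [axis]

lemma inv_cosh_le (x : ℝ) : (Real.cosh x)⁻¹ ≤ 2 * (1 + x ^ 2)⁻¹ := by
  have h1 : 1 + x ^ 2 / 2 ≤ Real.cosh x := by
    have h2 : Real.cosh x = 1 + 2 * Real.sinh (x / 2) ^ 2 := by
      have h3 := Real.cosh_two_mul (x / 2)
      have h4 := Real.cosh_sq (x / 2)
      rw [show 2 * (x / 2) = x by ring] at h3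
      linarith
    have h5 : (x / 2) ^ 2 ≤ Real.sinh (x / 2) ^ 2 := by
      rcases le_total 0 (x / 2) with h | h
      · exact pow_le_pow_left₀ h (Real.self_le_sinh_iff.2 h) 2
      · have h6 := Real.sinh_le_self_iff.2 h
        nlinarith
    rw [h2]; nlinarith
  rw [← div_eq_mul_inv, inv_eq_one_div, div_le_div_iff₀ (Real.cosh_pos x) (by positivity)]
  nlinarith [sq_nonneg x]

lemma length_finite : (∫⁻ x : ℝ, ENNReal.ofReal ((Real.cosh x)⁻¹)) < ∞ := by
  have h1 : Integrable (fun x : ℝ => 2 * (1 + x ^ 2)⁻¹) := integrable_inv_one_add_sq.const_mul 2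
  refine lt_of_le_of_lt (lintegral_mono fun x => ENNReal.ofReal_le_ofReal (inv_cosh_le x)) ?_
  exact h1.lintegral_lt_top

lemma sech_sq_finite : (∫⁻ x : ℝ, ENNReal.ofReal ((Real.cosh x ^ 2)⁻¹)) < ∞ := by
  refine lt_of_le_of_lt (lintegral_mono fun x => ENNReal.ofReal_le_ofReal ?_) length_finite
  have h1 := Real.one_le_cosh x
  exact inv_anti₀ (by linarith) (by nlinarith)

lemma sech_sq_pos : 0 < (∫⁻ x : ℝ, ENNReal.ofReal ((Real.cosh x ^ 2)⁻¹)) := by
  have hm : Measurable (fun x : ℝ => ENNReal.ofReal ((Real.cosh x ^ 2)⁻¹)) :=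
    ((Real.continuous_cosh.measurable.pow_const 2).inv).ennreal_ofReal
  rw [lintegral_pos_iff_support hm]
  have : Function.support (fun x : ℝ => ENNReal.ofReal ((Real.cosh x ^ 2)⁻¹)) = univ := by
    ext x
    have := Real.cosh_pos x
    simp only [Function.mem_support, mem_univ, iff_true]
    have h : 0 < ENNReal.ofReal ((Real.cosh x ^ 2)⁻¹) := ENNReal.ofReal_pos.2 (by positivity)
    exact h.ne'
  rw [this]
  simp

lemma gauss_Ioi {ε : ℝ} (hε : 0 < ε) :
    ∫⁻ y in Ioi (0:ℝ), ENNReal.ofReal (Real.exp (-(2 * ε) * y ^ 2))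
      = ENNReal.ofReal (√(Real.pi / (2 * ε)) / 2) := by
  rw [← integral_gaussian_Ioi, ofReal_integral_eq_lintegral_ofReal]
  · exact (integrable_exp_neg_mul_sq (by linarith)).integrableOn
  · exact Eventually.of_forall fun y => (Real.exp_pos _).le

lemma gauss_univ {ε : ℝ} (hε : 0 < ε) :
    ∫⁻ y : ℝ in univ, ENNReal.ofReal (Real.exp (-(2 * ε) * y ^ 2)) < ∞ := by
  rw [setLIntegral_univ]
  exact (integrable_exp_neg_mul_sq (show 0 < 2 * ε by linarith)).lintegral_lt_top

lemma gauss_Iio {ε : ℝ} (hε : 0 < ε) :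
    ∫⁻ y in Iio (0:ℝ), ENNReal.ofReal (Real.exp (-(2 * ε) * y ^ 2))
      = ENNReal.ofReal (√(Real.pi / (2 * ε)) / 2) := by
  rw [← gauss_Ioi hε]
  have h := (Measure.measurePreserving_neg (volume : Measure ℝ)).setLIntegral_comp_preimage_emb
    (MeasurableEquiv.neg ℝ).measurableEmbedding
    (fun y => ENNReal.ofReal (Real.exp (-(2 * ε) * y ^ 2))) (Ioi (0:ℝ))
  have h2 : (Neg.neg ⁻¹' (Ioi (0:ℝ))) = Iio 0 := by ext; simp
  rw [h2] at h
  rw [← h]
  refine lintegral_congr fun y => ?_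
  simp

theorem uu_super {ε : ℝ} (hε : 0 < ε) : IsSupersolution (uu ε) where
  smooth := (uu_contDiff ε).of_le (by norm_cast)
  ineq := uu_ineq hε
  finite := by
    have h := area_strip ε MeasurableSet.univ
    have h1 : {p : Plane | p 1 ∈ (univ : Set ℝ)} = univ := by ext; simp
    rw [h1, area, setLIntegral_univ] at h
    rw [h]
    exact ENNReal.mul_lt_top sech_sq_finite (gauss_univ hε)

lemma area_HP {ε : ℝ} (hε : 0 < ε) : area (uu ε) HP =
    (∫⁻ x : ℝ, ENNReal.ofReal ((Real.cosh x ^ 2)⁻¹)) * ENNReal.ofReal (√(Real.pi / (2 * ε)) / 2) := by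
  rw [← gauss_Iio hε]
  exact area_strip ε measurableSet_Iio

lemma area_HP_compl {ε : ℝ} (hε : 0 < ε) :
    (∫⁻ x : ℝ, ENNReal.ofReal ((Real.cosh x ^ 2)⁻¹)) * ENNReal.ofReal (√(Real.pi / (2 * ε)) / 2)
      ≤ area (uu ε) HPᶜ := by
  rw [← gauss_Ioi hε, ← area_strip ε measurableSet_Ioi]
  unfold area
  refine lintegral_mono_set fun p hp => ?_
  have : 0 < p 1 := hp
  simp only [mem_compl_iff, HP, mem_ofPred_eq, not_lt]
  exact this.le

/-- **Main theorem.**  For every constant `C` there are a supersolution `u` of the Liouville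
equation on the plane with finite volume and a smooth domain `Ω` with
`C · L(Ω)² < A(Ω) · A(ℝ² \ Ω)`.  With `C = 1` this is the negated form of Q1. -/
theorem result (C : NNReal) : ∃ (u : Plane → ℝ) (Ω : Set Plane),
    IsSupersolution u ∧ ContDiff ℝ (⊤ : ℕ∞) u ∧ IsSmoothDomain Ω ∧
      (C : ℝ≥0∞) * boundaryLength u Ω ^ 2 < area u Ω * area u Ωᶜ := by
  set L : ℝ≥0∞ := ∫⁻ x : ℝ, ENNReal.ofReal ((Real.cosh x)⁻¹) with hL
  set S : ℝ≥0∞ := ∫⁻ x : ℝ, ENNReal.ofReal ((Real.cosh x ^ 2)⁻¹) with hS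
  have hLf : L ≠ ∞ := length_finite.ne
  have hSf : S ≠ ∞ := sech_sq_finite.ne
  have hS0 : 0 < S := sech_sq_pos
  set s : ℝ := S.toReal with hs
  set l : ℝ := L.toReal with hl
  have hs0 : 0 < s := ENNReal.toReal_pos hS0.ne' hSf
  have hl0 : 0 ≤ l := ENNReal.toReal_nonneg
  have hSs : S = ENNReal.ofReal s := (ENNReal.ofReal_toReal hSf).symm
  have hLl : L = ENNReal.ofReal l := (ENNReal.ofReal_toReal hLf).symm
  -- choose ε with  (s √(π/(2ε))/2)² = (C + 1) l² + 1
  set M : ℝ := (C : ℝ) * l ^ 2 + 1 with hM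
  have hM0 : 0 < M := by positivity
  set ε : ℝ := Real.pi * s ^ 2 / (8 * M) with hε
  have hε0 : 0 < ε := by have := Real.pi_pos; positivity
  refine ⟨uu ε, HP, uu_super hε0, uu_contDiff ε, HP_smooth, ?_⟩
  have h1 : (s * (√(Real.pi / (2 * ε)) / 2)) * (s * (√(Real.pi / (2 * ε)) / 2)) = M := by
    have h2 : √(Real.pi / (2 * ε)) * √(Real.pi / (2 * ε)) = Real.pi / (2 * ε) :=
      Real.mul_self_sqrt (by have := Real.pi_pos; positivity)
    have h3 : Real.pi / (2 * ε) = 4 * M / s ^ 2 := by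
      rw [hε]; have := Real.pi_pos; field_simp; ring
    calc (s * (√(Real.pi / (2 * ε)) / 2)) * (s * (√(Real.pi / (2 * ε)) / 2))
        = s ^ 2 * (√(Real.pi / (2 * ε)) * √(Real.pi / (2 * ε))) / 4 := by ring
      _ = M := by rw [h2, h3]; field_simp
  calc (C : ℝ≥0∞) * boundaryLength (uu ε) HP ^ 2
      = ENNReal.ofReal ((C : ℝ) * l ^ 2) := by
        rw [length_HP, ← hL, hLl, ← ENNReal.ofReal_pow hl0, ENNReal.ofReal_mul C.coe_nonneg,
          ENNReal.ofReal_coe_nnreal]
    _ < ENNReal.ofReal M := by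
        rw [ENNReal.ofReal_lt_ofReal_iff hM0, hM]; linarith
    _ = (S * ENNReal.ofReal (√(Real.pi / (2 * ε)) / 2))
          * (S * ENNReal.ofReal (√(Real.pi / (2 * ε)) / 2)) := by
        rw [hSs, ← ENNReal.ofReal_mul hs0.le, ← ENNReal.ofReal_mul (by positivity), h1]
    _ ≤ area (uu ε) HP * area (uu ε) HPᶜ := by
        rw [← area_HP hε0]
        gcongr
        rw [area_HP hε0]
        exact area_HP_compl hε0

end Pool.Agent.Results.MP_c070b6_an.LevyGromovFails
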